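import Pool.Agent.H.MP_1cfa3b_gt.Main

namespace Pool.Agent.Results.MP_1cfa3b_gt.No

open Pool.Agent.H.MP_1cfa3b_gt

theorem result (X : Type) [MetricSpace X] [ProperSpace X] (β : X → X → unitInterval → X)
    (h : IsCCC β) (G : Type) [Group G] [MulAction G X] [IsIsometricSMul G X]
    [CompactSpace (Quotient (MulAction.orbitRel G X))] :
    (∀ ξ, ¬ IsRay β ξ) ∨
      ∃ ξ η, IsRay β ξ ∧ IsRay β η ∧ ¬ ∃ C : ℝ, ∀ t, dist (ξ t) (η t) ≤ C :=
  main h G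

end Pool.Agent.Results.MP_1cfa3b_gt.No
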